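import Pool.Agent.H466Z.MTCircle

open Pool.Agent.H466Z.MT

/-- For every degree bound `Δ ≥ 4` there is an LCL problem solvable on every measured graph
satisfying the mass transport principle but not on some quasi-invariant measured graph. -/
theorem Pool.Agent.Results.MP_bf3dd3_lc.Separation.result (Δ : ℕ) (hΔ : 4 ≤ Δ) :
    ∃ L : LCL Δ, (∀ M : MeasuredGraph Δ, M.MTP → L.SolvableOn M) ∧
      ∃ M : MeasuredGraph Δ, ¬ L.SolvableOn M :=
  ⟨theLCL Δ, solvable_of_mtp, circleGraph hΔ, not_solvable hΔ⟩
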